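import Pool.Agent.W295.PR.Stm

/-!
# Minimality of the action of `P` lifts through extensions by compact groups
-/

set_option autoImplicit false

open Set Topology

namespace Pool.Agent.W999.PR.MINP

open Pool.Agent.W295.PR

/-- existence of minimal sets -/
theorem exists_min {Y P : Type} [TopologicalSpace Y] [CompactSpace Y] (ap : P → Y → Y)
    (F : Set Y) (hF : IsClosed F) (hne : F.Nonempty) (hinv : ∀ g, ∀ y ∈ F, ap g y ∈ F) :
    ∃ M ⊆ F, IsClosed M ∧ M.Nonempty ∧ (∀ g, ∀ y ∈ M, ap g y ∈ M) ∧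
      ∀ M' ⊆ M, IsClosed M' → M'.Nonempty → (∀ g, ∀ y ∈ M', ap g y ∈ M') → M' = M := by
  obtain ⟨M, hM⟩ := zorn_superset {M : Set Y | M ⊆ F ∧ IsClosed M ∧ M.Nonempty ∧
      ∀ g, ∀ y ∈ M, ap g y ∈ M} (by
    intro c hc hchain
    rcases c.eq_empty_or_nonempty with h0 | h0
    · exact ⟨F, ⟨Subset.refl _, hF, hne, hinv⟩, fun s hs => by rw [h0] at hs; exact absurd hs (notMem_empty _)⟩
    · refine ⟨⋂₀ c, ⟨?_, ?_, ?_, ?_⟩, fun s hs => sInter_subset_of_mem hs⟩
      · obtain ⟨s, hs⟩ := h0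
        exact (sInter_subset_of_mem hs).trans (hc hs).1
      · exact isClosed_sInter fun s hs => (hc hs).2.1
      · have : Nonempty c := h0.to_subtype
        refine IsCompact.nonempty_sInter_of_directed_nonempty_isCompact_isClosed ?_ ?_ ?_ ?_
        · intro s hs t ht
          rcases hchain.total hs ht with h | h
          · exact ⟨s, hs, Subset.refl _, h⟩
          · exact ⟨t, ht, h, Subset.refl _⟩
        · exact fun s hs => (hc hs).2.2.1
        · exact fun s hs => (hc hs).2.1.isCompact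
        · exact fun s hs => (hc hs).2.1
      · intro g y hy
        rw [mem_sInter] at hy ⊢
        exact fun s hs => (hc hs).2.2.2 g y (hy s hs))
  refine ⟨M, hM.prop.1, hM.prop.2.1, hM.prop.2.2.1, hM.prop.2.2.2, ?_⟩
  intro M' h1 h2 h3 h4
  exact Subset.antisymm h1 (hM.le_of_le ⟨h1.trans hM.prop.1, h2, h3, h4⟩ h1)

theorem main : S_MinP := by
  intro Y C P _ _ _ _ _ _ _ _ _ _ E Y' _ _ ap' π hπ heq hfib hmin F hFΩ hF hne hinv
  obtain ⟨M, hMF, hM, hMne, hMinv, hMmin⟩ := exists_min E.ap F hF hne hinv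
  have hacc : ∀ c : C, Continuous (E.ac c) := fun c =>
    E.ac_cont.comp (Continuous.prodMk continuous_const continuous_id)
  have hapc : ∀ g : P, Continuous (E.ap g) := fun g =>
    E.ap_cont.comp (Continuous.prodMk continuous_const continuous_id)
  have hOmc : IsClosed E.Om := isClosed_closure
  have hOminv : ∀ g, ∀ y ∈ E.Om, E.ap g y ∈ E.Om := by
    intro g y hy
    have h1 : MapsTo (E.ap g) (Set.range fun g : P => E.ap g E.w)
        (Set.range fun g : P => E.ap g E.w) := by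
      rintro _ ⟨h, rfl⟩
      exact ⟨g * h, E.ap_mul g h E.w⟩
    exact h1.closure (hapc g) hy
  have hwOm : E.w ∈ E.Om := subset_closure ⟨1, E.ap_one E.w⟩
  -- the image of `M`
  have himg : π '' M = closure (Set.range fun g : P => ap' g (π E.w)) := by
    refine hmin _ ?_ ?_ (hMne.image π) ?_
    · rintro _ ⟨y, hy, rfl⟩
      have h1 : MapsTo π (Set.range fun g : P => E.ap g E.w)
          (Set.range fun g : P => ap' g (π E.w)) := by
        rintro _ ⟨h, rfl⟩
        exact ⟨h, (heq h E.w).symm⟩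
      exact h1.closure hπ (hFΩ (hMF hy))
    · exact (hM.isCompact.image hπ).isClosed
    · rintro g _ ⟨y, hy, rfl⟩
      exact ⟨E.ap g y, hMinv g y hy, heq g y⟩
  have hw' : π E.w ∈ π '' M := by
    rw [himg]
    refine subset_closure ⟨1, ?_⟩
    change ap' 1 (π E.w) = π E.w
    rw [← heq, E.ap_one]
  obtain ⟨m, hm, hmw⟩ := hw'
  obtain ⟨c, rfl⟩ := hfib E.w m hmw.symm
  have hsub : ∀ y ∈ E.Om, E.ac c y ∈ M := by
    intro y hy
    have h1 : (Set.range fun g : P => E.ap g E.w) ⊆ E.ac c ⁻¹' M := by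
      rintro _ ⟨g, rfl⟩
      change E.ac c (E.ap g E.w) ∈ M
      rw [← E.comm]
      exact hMinv g _ hm
    exact closure_minimal h1 (hM.preimage (hacc c)) hy
  have himc : ∀ A : Set Y, IsClosed A → IsClosed (E.ac c '' A) := fun A hA =>
    (hA.isCompact.image (hacc c)).isClosed
  have himinv : ∀ A : Set Y, (∀ g, ∀ y ∈ A, E.ap g y ∈ A) →
      ∀ g, ∀ y ∈ E.ac c '' A, E.ap g y ∈ E.ac c '' A := by
    rintro A hA g _ ⟨y, hy, rfl⟩
    exact ⟨E.ap g y, hA g y hy, (E.comm g c y).symm⟩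
  have h1 : E.ac c '' E.Om = M := by
    refine hMmin _ ?_ (himc _ hOmc) ⟨_, E.w, hwOm, rfl⟩ (himinv _ hOminv)
    rintro _ ⟨y, hy, rfl⟩
    exact hsub y hy
  have h2 : E.ac c '' (E.ac c '' E.Om) = M := by
    refine hMmin _ ?_ (himc _ (himc _ hOmc)) ⟨_, _, ⟨E.w, hwOm, rfl⟩, rfl⟩
      (himinv _ (himinv _ hOminv))
    rintro _ ⟨_, ⟨y, hy, rfl⟩, rfl⟩
    exact hsub _ (hFΩ (hMF (hsub y hy)))
  have hinj : Function.Injective (E.ac c) := by
    intro x y hxy
    have h3 := congrArg (E.ac c⁻¹) hxy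
    rwa [← E.ac_mul, ← E.ac_mul, inv_mul_cancel, E.ac_one, E.ac_one] at h3
  have h3 : E.ac c '' E.Om = E.Om := by
    apply hinj.image_injective
    rw [h2, h1]
  have h4 : M = E.Om := by rw [← h1, h3]
  exact Subset.antisymm hFΩ (h4 ▸ hMF)

end Pool.Agent.W999.PR.MINP
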